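import Pool.Agent.R482.ST.Mills

/-! # Sets of integers of density zero and multiplication by powers -/

set_option autoImplicit false

open Filter Topology Finset MeasureTheory

namespace Pool.Agent.V7H56.TN

/-- the number of `s` in `S`, `|s| ≤ Y`, is `O (Y (1 + log Y) ^ (-δ))` -/
def Slow (S : Set ℤ) (δ : ℝ) : Prop :=
  ∃ C : ℝ, ∀ Y : ℝ, 1 ≤ Y → {s : ℤ | s ∈ S ∧ |(s : ℝ)| ≤ Y}.Finite ∧
    ({s : ℤ | s ∈ S ∧ |(s : ℝ)| ≤ Y}.ncard : ℝ) ≤ C * Y * (1 + Real.log Y) ^ (-δ)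

lemma fin_le (S : Set ℤ) (X : ℝ) : {s : ℤ | s ∈ S ∧ |(s : ℝ)| ≤ X}.Finite := by
  refine (Set.finite_Icc (-⌊X⌋) ⌊X⌋).subset ?_
  rintro k ⟨-, h1⟩
  rw [abs_le] at h1
  rw [Set.mem_Icc]
  constructor
  · rw [neg_le]
    apply Int.le_floor.2
    push_cast
    linarith [h1.1]
  · exact Int.le_floor.2 h1.2

lemma Slow.mono {S T : Set ℤ} {δ : ℝ} (h : Slow T δ) (hST : S ⊆ T) : Slow S δ := by
  obtain ⟨C, hC⟩ := h
  refine ⟨C, fun Y hY => ⟨fin_le S Y, le_trans ?_ (hC Y hY).2⟩⟩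
  refine Nat.cast_le.2 (Set.ncard_le_ncard ?_ (fin_le T Y))
  rintro s ⟨h1, h2⟩
  exact ⟨hST h1, h2⟩

/-- the sum over the factors which are `k`-th powers -/
lemma sum_pow {δ : ℝ} (hδ : 0 < δ) {k : ℕ} (hk : 2 ≤ k) :
    Summable fun m : ℕ => (1 + k * Real.log m) ^ δ / (m : ℝ) ^ k := by
  have h1 := (Pool.Agent.R482.ST.sum_sq hδ).mul_left ((k : ℝ) ^ δ)
  rw [← summable_nat_add_iff 1] at h1 ⊢
  have hk0 : (0 : ℝ) < k := by
    have : 0 < k := by omega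
    exact_mod_cast this
  have hk1 : (1 : ℝ) ≤ k := by
    have : 1 ≤ k := by omega
    exact_mod_cast this
  refine Summable.of_nonneg_of_le (fun m => ?_) (fun m => ?_) h1
  · have : (1 : ℝ) ≤ ((m + 1 : ℕ) : ℝ) := by
      push_cast
      have : (0 : ℝ) ≤ m := Nat.cast_nonneg m
      linarith
    have hl : 0 ≤ Real.log ((m + 1 : ℕ) : ℝ) := Real.log_nonneg this
    positivity
  · have h1 : (1 : ℝ) ≤ ((m + 1 : ℕ) : ℝ) := by
      push_cast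
      have : (0 : ℝ) ≤ m := Nat.cast_nonneg m
      linarith
    have h0 : (0 : ℝ) < ((m + 1 : ℕ) : ℝ) := by linarith
    have hl : 0 ≤ Real.log ((m + 1 : ℕ) : ℝ) := Real.log_nonneg h1
    have e1 : (1 + (k : ℝ) * Real.log ((m + 1 : ℕ) : ℝ)) ^ δ ≤
        (k : ℝ) ^ δ * (1 + 2 * Real.log ((m + 1 : ℕ) : ℝ)) ^ δ := by
      rw [← Real.mul_rpow hk0.le (by positivity)]
      refine Real.rpow_le_rpow (by positivity) ?_ hδ.le
      nlinarith [mul_nonneg hk0.le hl]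
    have e2 : ((m + 1 : ℕ) : ℝ) ^ 2 ≤ ((m + 1 : ℕ) : ℝ) ^ k := pow_le_pow_right₀ h1 hk
    rw [← mul_div_assoc]
    exact div_le_div₀ (by positivity) e1 (by positivity) e2

/-- products of the elements of a set and `k`-th powers -/
theorem slow_mul {S : Set ℤ} (h0 : (0 : ℤ) ∉ S) {δ : ℝ} (hδ : 0 < δ) (hS : Slow S δ) {k : ℕ}
    (hk : 2 ≤ k) : Slow {d : ℤ | ∃ s ∈ S, ∃ m : ℤ, 1 ≤ m ∧ d = s * m ^ k} δ := by
  obtain ⟨C, hP⟩ := hS
  set Sg : ℝ := ∑' m : ℕ, (1 + k * Real.log m) ^ δ / (m : ℝ) ^ k with hSg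
  have hsum := sum_pow hδ hk
  refine ⟨|C| * Sg, fun X hX => ⟨fin_le _ X, ?_⟩⟩
  have hX0 : 0 < X := by linarith
  have hlX : 0 ≤ Real.log X := Real.log_nonneg hX
  have hk0 : (0 : ℝ) ≤ k := Nat.cast_nonneg k
  set M : Finset ℕ := (Finset.Icc 1 ⌊X⌋₊).filter (fun m : ℕ => (m : ℝ) ^ k ≤ X) with hM
  have hsub : {d : ℤ | d ∈ {d : ℤ | ∃ s ∈ S, ∃ m : ℤ, 1 ≤ m ∧ d = s * m ^ k} ∧ |(d : ℝ)| ≤ X} ⊆
      ⋃ m ∈ M, (fun s : ℤ => s * (m : ℤ) ^ k) ''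
        {s : ℤ | s ∈ S ∧ |(s : ℝ)| ≤ X / (m : ℝ) ^ k} := by
    rintro d ⟨⟨s, hs, m, hm, rfl⟩, hd⟩
    lift m to ℕ using (by omega)
    have hm1 : (1 : ℝ) ≤ (m : ℝ) := by exact_mod_cast hm
    have hs0 : s ≠ 0 := fun h => h0 (h ▸ hs)
    have hs1 : (1 : ℝ) ≤ |(s : ℝ)| := by
      have : (1 : ℤ) ≤ |s| := Int.one_le_abs hs0
      exact_mod_cast this
    have hmk : 0 ≤ (m : ℝ) ^ k := by positivity
    have hd' : |(s : ℝ)| * (m : ℝ) ^ k ≤ X := by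
      have : |((s * (m : ℤ) ^ k : ℤ) : ℝ)| = |(s : ℝ)| * (m : ℝ) ^ k := by
        push_cast
        rw [abs_mul, abs_of_nonneg hmk]
      rw [← this]
      exact hd
    have hmX : (m : ℝ) ^ k ≤ X := by nlinarith
    have hmm : (m : ℝ) ≤ (m : ℝ) ^ k := le_self_pow₀ hm1 (by omega)
    rw [Set.mem_iUnion₂]
    refine ⟨m, ?_, s, ⟨hs, ?_⟩, rfl⟩
    · rw [hM, mem_filter, mem_Icc]
      exact ⟨⟨by exact_mod_cast hm, Nat.le_floor (hmm.trans hmX)⟩, hmX⟩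
    · rw [le_div_iff₀ (by positivity)]
      exact hd'
  have hfinU : (⋃ m ∈ M, (fun s : ℤ => s * (m : ℤ) ^ k) ''
        {s : ℤ | s ∈ S ∧ |(s : ℝ)| ≤ X / (m : ℝ) ^ k}).Finite := by
    refine Set.Finite.biUnion (Finset.finite_toSet M) fun m hm => ?_
    exact (fin_le S _).image _
  have h1 := (Set.ncard_le_ncard hsub hfinU).trans (Finset.set_ncard_biUnion_le M _)
  have h2 : ∀ m ∈ M, ((((fun s : ℤ => s * (m : ℤ) ^ k) ''
        {s : ℤ | s ∈ S ∧ |(s : ℝ)| ≤ X / (m : ℝ) ^ k}).ncard : ℕ) : ℝ) ≤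
      |C| * (X * (1 + Real.log X) ^ (-δ)) * ((1 + k * Real.log m) ^ δ / (m : ℝ) ^ k) := by
    intro m hm
    rw [hM, mem_filter, mem_Icc] at hm
    have hm1 : (1 : ℝ) ≤ (m : ℝ) := by exact_mod_cast hm.1.1
    have hm0 : (0 : ℝ) < m := by linarith
    have hY : 1 ≤ X / (m : ℝ) ^ k := by
      rw [le_div_iff₀ (by positivity), one_mul]
      exact hm.2
    obtain ⟨g1, g2⟩ := hP _ hY
    have g3 : ((((fun s : ℤ => s * (m : ℤ) ^ k) ''
        {s : ℤ | s ∈ S ∧ |(s : ℝ)| ≤ X / (m : ℝ) ^ k}).ncard : ℕ) : ℝ) ≤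
        (({s : ℤ | s ∈ S ∧ |(s : ℝ)| ≤ X / (m : ℝ) ^ k}.ncard : ℕ) : ℝ) := by
      exact_mod_cast Set.ncard_image_le g1
    have hlm : 0 ≤ Real.log m := Real.log_nonneg hm1
    have hklm : 0 ≤ k * Real.log m := mul_nonneg hk0 hlm
    have hlY : 0 ≤ Real.log (X / (m : ℝ) ^ k) := Real.log_nonneg hY
    have hleq : Real.log X = Real.log (X / (m : ℝ) ^ k) + k * Real.log m := by
      rw [Real.log_div hX0.ne' (by positivity), Real.log_pow]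
      ring
    have g4 : 1 + Real.log X ≤ (1 + Real.log (X / (m : ℝ) ^ k)) * (1 + k * Real.log m) := by
      rw [hleq]
      nlinarith [mul_nonneg hlY hklm]
    have g5 : (1 + Real.log (X / (m : ℝ) ^ k)) ^ (-δ) ≤ (1 + Real.log X) ^ (-δ) * (1 + k * Real.log m) ^ δ := by
      have e1 : 0 < 1 + Real.log (X / (m : ℝ) ^ k) := by linarith
      have e2 : 0 < 1 + k * Real.log (m : ℝ) := by linarith
      have e3 : ((1 + Real.log (X / (m : ℝ) ^ k)) * (1 + k * Real.log m)) ^ (-δ) ≤ (1 + Real.log X) ^ (-δ) :=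
        Real.rpow_le_rpow_of_nonpos (by linarith) g4 (by linarith)
      rw [Real.mul_rpow e1.le e2.le, Real.rpow_neg e2.le] at e3
      have e4 : 0 < (1 + k * Real.log (m : ℝ)) ^ δ := by positivity
      calc (1 + Real.log (X / (m : ℝ) ^ k)) ^ (-δ) =
          (1 + Real.log (X / (m : ℝ) ^ k)) ^ (-δ) * ((1 + k * Real.log m) ^ δ)⁻¹ * (1 + k * Real.log m) ^ δ := by
            field_simp
        _ ≤ _ := mul_le_mul_of_nonneg_right e3 e4.le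
    have g6 : 0 ≤ (1 + Real.log (X / (m : ℝ) ^ k)) ^ (-δ) := Real.rpow_nonneg (by linarith) _
    calc _ ≤ C * (X / (m : ℝ) ^ k) * (1 + Real.log (X / (m : ℝ) ^ k)) ^ (-δ) := g3.trans g2
      _ ≤ |C| * (X / (m : ℝ) ^ k) * (1 + Real.log (X / (m : ℝ) ^ k)) ^ (-δ) := by
          apply mul_le_mul_of_nonneg_right _ g6
          exact mul_le_mul_of_nonneg_right (le_abs_self C) (by positivity)
      _ ≤ |C| * (X / (m : ℝ) ^ k) * ((1 + Real.log X) ^ (-δ) * (1 + k * Real.log m) ^ δ) :=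
          mul_le_mul_of_nonneg_left g5 (by positivity)
      _ = _ := by
          field_simp
  have hnn : 0 ≤ |C| * (X * (1 + Real.log X) ^ (-δ)) := by positivity
  calc (({d : ℤ | d ∈ {d : ℤ | ∃ s ∈ S, ∃ m : ℤ, 1 ≤ m ∧ d = s * m ^ k} ∧ |(d : ℝ)| ≤ X}.ncard : ℕ) : ℝ)
      ≤ ((∑ m ∈ M, ((fun s : ℤ => s * (m : ℤ) ^ k) ''
        {s : ℤ | s ∈ S ∧ |(s : ℝ)| ≤ X / (m : ℝ) ^ k}).ncard : ℕ) : ℝ) := Nat.cast_le.2 h1
    _ ≤ ∑ m ∈ M, |C| * (X * (1 + Real.log X) ^ (-δ)) * ((1 + k * Real.log m) ^ δ / (m : ℝ) ^ k) := by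
        push_cast
        exact sum_le_sum h2
    _ = |C| * (X * (1 + Real.log X) ^ (-δ)) * ∑ m ∈ M, ((1 + k * Real.log m) ^ δ / (m : ℝ) ^ k) := by
        rw [mul_sum]
    _ ≤ |C| * (X * (1 + Real.log X) ^ (-δ)) * Sg := by
        apply mul_le_mul_of_nonneg_left _ hnn
        refine hsum.sum_le_tsum _ fun m _ => ?_
        rcases Nat.eq_zero_or_pos m with h0 | h0
        · subst h0
          simp
        · have : (1 : ℝ) ≤ m := by exact_mod_cast h0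
          have := Real.log_nonneg this
          positivity
    _ = |C| * Sg * X * (1 + Real.log X) ^ (-δ) := by ring

end Pool.Agent.V7H56.TN
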