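import Pool.Agent.V7H56.TN.Count
import Pool.Agent.N92.TC.Sec

/-! # All integers near `x ^ (v n)` are divisible exactly once by a prime of a given set -/

set_option autoImplicit false
set_option linter.unusedSectionVars false

open Filter Topology Finset MeasureTheory Polynomial

namespace Pool.Agent.V7H56.TN

open Pool.Agent.R925.FD Pool.Agent.W401.Cheb Pool.Agent.W723.SecC Pool.Agent.N92.TC
open Pool.Agent.N680.TH (Once)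

/-- integers which no prime of `P` divides exactly once -/
lemma decomp (P : Set ℕ) (hP : ∀ p ∈ P, p.Prime) (a : ℤ) (ha : a ≠ 0) (h : ∀ p ∈ P, ¬ Once p a) :
    ∃ s B A : ℤ, Squarefree s ∧ (∀ p ∈ P, ¬ (p : ℤ) ∣ s) ∧ 1 ≤ B ∧ 1 ≤ A ∧
      a = s * B ^ 3 * A ^ 2 := by
  classical
  obtain ⟨s, m, hs, hm, rfl⟩ := Pool.Agent.R482.ST.sf_decomp a ha
  have hs0 : s ≠ 0 := hs.ne_zero
  have hsn : s.natAbs ≠ 0 := Int.natAbs_ne_zero.2 hs0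
  set F : Finset ℕ := s.natAbs.primeFactors.filter (fun p => p ∈ P) with hF
  set B : ℕ := ∏ p ∈ F, p with hB
  have hFp : ∀ p ∈ F, p.Prime := fun p hp => Nat.prime_of_mem_primeFactors (mem_filter.1 hp).1
  have hB0 : 0 < B := Finset.prod_pos fun p hp => (hFp p hp).pos
  have hBs : B ∣ s.natAbs := (Finset.prod_dvd_prod_of_subset F s.natAbs.primeFactors
    (fun p => p) (filter_subset _ _)).trans (Nat.prod_primeFactors_dvd _)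
  have hBm : B ∣ m.natAbs := by
    refine Finset.prod_primes_dvd m.natAbs (fun p hp => (hFp p hp).prime) fun p hp => ?_
    have hpp := hFp p hp
    have hpi := Nat.prime_iff_prime_int.1 hpp
    have hps : (p : ℤ) ∣ s := Int.natCast_dvd.2 (Nat.dvd_of_mem_primeFactors (mem_filter.1 hp).1)
    have hpP : p ∈ P := (mem_filter.1 hp).2
    have h1 : (p : ℤ) ^ 2 ∣ s * m ^ 2 := by
      by_contra hcon
      exact h p hpP ⟨hps.mul_right _, hcon⟩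
    obtain ⟨s', rfl⟩ := hps
    rw [sq, mul_assoc] at h1
    have h2 : (p : ℤ) ∣ s' * m ^ 2 := Int.dvd_of_mul_dvd_mul_left hpi.ne_zero h1
    rcases hpi.dvd_or_dvd h2 with h3 | h3
    · exact absurd (hs p (mul_dvd_mul_left _ h3)) hpi.not_unit
    · exact Int.natCast_dvd.1 (hpi.dvd_of_dvd_pow h3)
  obtain ⟨s₁, hs₁⟩ : (B : ℤ) ∣ s := Int.natCast_dvd.2 hBs
  obtain ⟨m₁, hm₁⟩ : (B : ℤ) ∣ m := Int.natCast_dvd.2 hBm
  have hBi : (1 : ℤ) ≤ B := by exact_mod_cast hB0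
  refine ⟨s₁, B, m₁, hs.squarefree_of_dvd (Dvd.intro_left _ hs₁.symm), ?_, hBi, ?_, ?_⟩
  · intro p hp hps
    have hpp := hP p hp
    have hpi := Nat.prime_iff_prime_int.1 hpp
    have hps' : (p : ℤ) ∣ s := hps.trans (Dvd.intro_left _ hs₁.symm)
    have hpF : p ∈ F := by
      rw [hF, mem_filter, Nat.mem_primeFactors]
      exact ⟨⟨hpp, Int.natCast_dvd.1 hps', hsn⟩, hp⟩
    have hpB : (p : ℤ) ∣ (B : ℤ) := by
      exact_mod_cast Finset.dvd_prod_of_mem (fun p => p) hpF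
    refine hpi.not_unit (hs p ?_)
    rw [hs₁]
    exact mul_dvd_mul hpB hps
  · have h1 : 0 < (B : ℤ) * m₁ := by
      rw [← hm₁]
      omega
    have h2 : 0 < m₁ := pos_of_mul_pos_right h1 (by omega)
    omega
  · rw [hs₁, hm₁]
    ring

theorem slow_bad (P : Set ℕ) (hP : ∀ p ∈ P, p.Prime) (δ C : ℝ) (hδ : 0 < δ)
    (hcount : ∀ N : ℕ, δ * (∑ n ∈ range N, Set.indicator {p | p.Prime} (fun _ => (1 : ℝ)) n) - C ≤
      ∑ n ∈ range N, Set.indicator P (fun _ => (1 : ℝ)) n) :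
    ∃ κ : ℝ, 0 < κ ∧ Slow {a : ℤ | a ≠ 0 ∧ ∀ p ∈ P, ¬ Once p a} κ := by
  obtain ⟨κ, hκ, -, C', hC'⟩ := sieve P hP δ C hδ hcount
  refine ⟨κ, hκ, ?_⟩
  have h1 : Slow {s : ℤ | Squarefree s ∧ ∀ p ∈ P, ¬ (p : ℤ) ∣ s} κ := by
    obtain ⟨C1, hC1⟩ := Pool.Agent.R482.ST.slow_count
      {s : ℤ | Squarefree s ∧ ∀ p ∈ P, ¬ (p : ℤ) ∣ s} (fun d : ℤ => |(d : ℝ)|) (fin_le _)
      (C := C') hκ 3 (by
        intro X hX
        have he : {d : ℤ | d ∈ {s : ℤ | Squarefree s ∧ ∀ p ∈ P, ¬ (p : ℤ) ∣ s} ∧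
            |(d : ℝ)| ≤ (X : ℝ)} =
            {a : ℤ | a.natAbs ≤ X ∧ Squarefree a ∧ ∀ p ∈ P, ¬ (p : ℤ) ∣ a} := by
          ext d
          constructor
          · rintro ⟨h1, h2⟩
            refine ⟨?_, h1⟩
            have h3 : |d| ≤ (X : ℤ) := by exact_mod_cast h2
            rw [Int.abs_eq_natAbs] at h3
            exact_mod_cast h3
          · rintro ⟨h1, h2⟩
            refine ⟨h2, ?_⟩
            have h3 : |d| ≤ (X : ℤ) := by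
              rw [Int.abs_eq_natAbs]
              exact_mod_cast h1
            exact_mod_cast h3
        rw [he]
        exact hC' X hX)
    exact ⟨C1, hC1⟩
  have h2 := slow_mul (k := 3) (by
    rintro ⟨h, -⟩
    exact h.ne_zero rfl) hκ h1 (by norm_num)
  have h3 := slow_mul (k := 2) (by
    rintro ⟨s, hs, m, hm, h⟩
    have h4 : s * m ^ 3 ≠ 0 := mul_ne_zero hs.1.ne_zero (pow_ne_zero _ (by omega))
    exact h4 h.symm) hκ h2 le_rfl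
  refine h3.mono ?_
  rintro a ⟨ha, h⟩
  obtain ⟨s, B, A, h1, h2, h3, h4, rfl⟩ := decomp P hP a ha h
  exact ⟨s * B ^ 3, ⟨s, ⟨h1, h2⟩, B, h3, rfl⟩, A, h4, rfl⟩

theorem near_null (P : Set ℕ) (hP : ∀ p ∈ P, p.Prime) (δ C : ℝ) (hδ : 0 < δ)
    (hcount : ∀ N : ℕ, δ * (∑ n ∈ range N, Set.indicator {p | p.Prime} (fun _ => (1 : ℝ)) n) - C ≤
      ∑ n ∈ range N, Set.indicator P (fun _ => (1 : ℝ)) n)
    {v L : ℕ → ℝ} (hv : ∀ n, 1 ≤ v n) (hL : ∀ n, 1 ≤ L n)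
    (hs : ∀ t : ℝ, 0 < t → Summable fun n => L n * (v n) ^ (-t)) :
    ∃ Z : Set ℝ, volume Z = 0 ∧ ∀ x : ℝ, 1 < x → x ∉ Z → ∃ n₀ : ℕ, ∀ n : ℕ, n₀ ≤ n →
      ∀ a : ℤ, a ≠ 0 → |(|(a : ℝ)|) - x ^ (v n)| ≤ L n → ∃ p ∈ P, Once p a := by
  obtain ⟨κ, hκ, C1, hC1⟩ := slow_bad P hP δ C hδ hcount
  obtain ⟨hinf, hLf⟩ := Pool.Agent.R482.ST.tend_of_sum hv hL hκ (hs κ hκ)
  obtain ⟨N, hN, hw⟩ := Pool.Agent.R482.ST.slow_pow {a : ℤ | a ≠ 0 ∧ ∀ p ∈ P, ¬ Once p a}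
    (fun d : ℤ => |(d : ℝ)|) hκ hC1 hv (fun n => by linarith [hL n]) hLf hinf (hs κ hκ)
  refine ⟨N, hN, fun x hx hxN => ?_⟩
  obtain ⟨n₀, hn⟩ := hw x hx hxN
  refine ⟨n₀, fun n hn1 a ha hd => ?_⟩
  by_contra hno
  push Not at hno
  exact absurd (hn n hn1 a ⟨ha, hno⟩) (not_lt.2 hd)

theorem dt_count (d : Dt) : ∃ P ⊆ d.P, ∃ δ C : ℝ, 0 < δ ∧ ∀ N : ℕ,
    δ * (∑ n ∈ range N, Set.indicator {p | p.Prime} (fun _ => (1 : ℝ)) n) - C ≤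
      ∑ n ∈ range N, Set.indicator P (fun _ => (1 : ℝ)) n := by
  classical
  have hnp := d.np
  unfold Persistent at hnp
  push Not at hnp
  obtain ⟨σ, hσ⟩ := hnp
  obtain ⟨L, iF, iN, iG, τ, m, hm, hL⟩ := cheb d.n d.hn d.g d.h d.hh d.hdeg d.s d.hs σ (by
    intro β h1 h2
    obtain ⟨k, hk⟩ := hσ β h1 h2
    refine ⟨k, fun y hy => ?_⟩
    have h3 := hk y hy
    rw [Rat.cast_intCast] at h3
    exact h3)
  obtain ⟨δ, C, hδ, hcount⟩ := count L τ (m * d.N) (Nat.mul_pos hm d.hN)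
  refine ⟨frobSet L τ (m * d.N), ?_, δ, C, hδ, hcount⟩
  rintro p ⟨hp, hpM, hx⟩
  exact ⟨hp, fun h => hpM (h.mul_left _), hL p ⟨hp, fun h => hpM (h.mul_right _), hx⟩⟩

theorem primes_count (k : ℕ) (N : ℕ) :
    (1 : ℝ) * (∑ n ∈ range N, Set.indicator {p | p.Prime} (fun _ => (1 : ℝ)) n) - (k + 1 : ℝ) ≤
      ∑ n ∈ range N, Set.indicator {p : ℕ | p.Prime ∧ k < p} (fun _ => (1 : ℝ)) n := by
  classical
  have h1 : ∑ n ∈ range N, Set.indicator {p | p.Prime} (fun _ => (1 : ℝ)) n ≤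
      ∑ n ∈ range N, (Set.indicator {p : ℕ | p.Prime ∧ k < p} (fun _ => (1 : ℝ)) n +
        if n ≤ k then (1 : ℝ) else 0) := by
    refine sum_le_sum fun n _ => ?_
    by_cases hp : n.Prime
    · by_cases hk : k < n
      · have a1 : n ∈ {p : ℕ | p.Prime ∧ k < p} := ⟨hp, hk⟩
        have a2 : n ∈ {p : ℕ | p.Prime} := hp
        rw [Set.indicator_of_mem a1, Set.indicator_of_mem a2]
        split_ifs <;> norm_num
      · have a1 : n ∉ {p : ℕ | p.Prime ∧ k < p} := fun h => hk h.2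
        have a2 : n ∈ {p : ℕ | p.Prime} := hp
        rw [Set.indicator_of_notMem a1, Set.indicator_of_mem a2, if_pos (not_lt.1 hk)]
        norm_num
    · have a1 : n ∉ {p : ℕ | p.Prime ∧ k < p} := fun h => hp h.1
      have a2 : n ∉ {p : ℕ | p.Prime} := hp
      rw [Set.indicator_of_notMem a1, Set.indicator_of_notMem a2]
      split_ifs <;> norm_num
  have h2 : ∑ n ∈ range N, (if n ≤ k then (1 : ℝ) else 0) ≤ k + 1 := by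
    rw [← sum_filter, sum_const, nsmul_eq_mul, mul_one]
    have h3 : ((range N).filter (fun n => n ≤ k)).card ≤ (range (k + 1)).card := by
      refine card_le_card fun n hn => ?_
      rw [mem_filter] at hn
      rw [mem_range]
      omega
    rw [card_range] at h3
    exact_mod_cast h3
  rw [sum_add_distrib] at h1
  linarith

/-- **One null set.** -/
theorem all_near {v L : ℕ → ℝ} (hv : ∀ n, 1 ≤ v n) (hL : ∀ n, 1 ≤ L n)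
    (hs : ∀ t : ℝ, 0 < t → Summable fun n => L n * (v n) ^ (-t)) :
    ∃ Z : Set ℝ, volume Z = 0 ∧ ∀ x : ℝ, 1 < x → x ∉ Z →
      (∀ k : ℕ, ∃ n₀ : ℕ, ∀ n : ℕ, n₀ ≤ n → ∀ a : ℤ, a ≠ 0 → |(|(a : ℝ)|) - x ^ (v n)| ≤ L n →
        ∃ p : ℕ, p.Prime ∧ k < p ∧ Once p a) ∧
      (∀ d : Dt, ∃ n₀ : ℕ, ∀ n : ℕ, n₀ ≤ n → ∀ a : ℤ, a ≠ 0 → |(|(a : ℝ)|) - x ^ (v n)| ≤ L n →
        ∃ p ∈ d.P, Once p a) := by
  classical
  have hc := countable_dt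
  have h1 : ∀ k : ℕ, ∃ Z : Set ℝ, volume Z = 0 ∧ ∀ x : ℝ, 1 < x → x ∉ Z → ∃ n₀ : ℕ, ∀ n : ℕ,
      n₀ ≤ n → ∀ a : ℤ, a ≠ 0 → |(|(a : ℝ)|) - x ^ (v n)| ≤ L n →
        ∃ p : ℕ, p.Prime ∧ k < p ∧ Once p a := by
    intro k
    obtain ⟨Z, hZ, h⟩ := near_null {p : ℕ | p.Prime ∧ k < p} (fun p hp => hp.1) 1 (k + 1) one_pos
      (primes_count k) hv hL hs
    refine ⟨Z, hZ, fun x hx hxZ => ?_⟩
    obtain ⟨n₀, hn⟩ := h x hx hxZ
    refine ⟨n₀, fun n hn1 a ha hd => ?_⟩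
    obtain ⟨p, hp, hpa⟩ := hn n hn1 a ha hd
    exact ⟨p, hp.1, hp.2, hpa⟩
  have h2 : ∀ d : Dt, ∃ Z : Set ℝ, volume Z = 0 ∧ ∀ x : ℝ, 1 < x → x ∉ Z → ∃ n₀ : ℕ, ∀ n : ℕ,
      n₀ ≤ n → ∀ a : ℤ, a ≠ 0 → |(|(a : ℝ)|) - x ^ (v n)| ≤ L n → ∃ p ∈ d.P, Once p a := by
    intro d
    obtain ⟨P, hPd, δ, C, hδ, hcount⟩ := dt_count d
    obtain ⟨Z, hZ, h⟩ := near_null P (fun p hp => (hPd hp).1) δ C hδ hcount hv hL hs
    refine ⟨Z, hZ, fun x hx hxZ => ?_⟩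
    obtain ⟨n₀, hn⟩ := h x hx hxZ
    refine ⟨n₀, fun n hn1 a ha hd => ?_⟩
    obtain ⟨p, hp, hpa⟩ := hn n hn1 a ha hd
    exact ⟨p, hPd hp, hpa⟩
  choose Z₁ hZ₁ hx₁ using h1
  choose Z₂ hZ₂ hx₂ using h2
  refine ⟨(⋃ k, Z₁ k) ∪ ⋃ d, Z₂ d, measure_union_null (measure_iUnion_null hZ₁)
    (measure_iUnion_null hZ₂), fun x hx hxZ => ⟨fun k => hx₁ k x hx fun h => hxZ (Or.inl ?_),
      fun d => hx₂ d x hx fun h => hxZ (Or.inr ?_)⟩⟩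
  · exact Set.mem_iUnion.2 ⟨k, h⟩
  · exact Set.mem_iUnion.2 ⟨d, h⟩

/-- enumeration of the pairs of an index and an integer of the window of this index -/
lemma fin_enum (W : ℕ → Set ℤ) (hW : ∀ k, (W k).Finite) (e : ℕ ≃ ℕ × ℤ) (Q : ℤ → Prop)
    (h : ∃ n₀ : ℕ, ∀ n : ℕ, n₀ ≤ n → ∀ a ∈ W n, Q a) :
    {t : ℕ | t ∉ {t : ℕ | (e t).2 ∉ W (e t).1} ∧ ¬ Q (e t).2}.Finite := by
  classical
  obtain ⟨n₀, hn⟩ := h
  have hf : (⋃ n ∈ Finset.range n₀, (({n} : Set ℕ) ×ˢ W n)).Finite :=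
    Set.Finite.biUnion (Finset.finite_toSet _) fun n _ => (Set.finite_singleton n).prod (hW n)
  refine (hf.preimage (e.injective.injOn)).subset ?_
  rintro t ⟨h1, h2⟩
  have h3 : (e t).2 ∈ W (e t).1 := not_not.1 h1
  have h4 : (e t).1 < n₀ := by
    by_contra hcon
    exact h2 (hn _ (not_lt.1 hcon) _ h3)
  rw [Set.mem_preimage, Set.mem_iUnion₂]
  exact ⟨(e t).1, Finset.mem_coe.2 (Finset.mem_range.2 h4), rfl, h3⟩

lemma of_fin_enum (W : ℕ → Set ℤ) (e : ℕ ≃ ℕ × ℤ) (Q : ℤ → Prop)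
    (h : {t : ℕ | t ∉ {t : ℕ | (e t).2 ∉ W (e t).1} ∧ Q (e t).2}.Finite) :
    ∃ n₀ : ℕ, ∀ n : ℕ, n₀ ≤ n → ∀ a ∈ W n, ¬ Q a := by
  obtain ⟨M, hM⟩ := (h.image fun t => (e t).1).bddAbove
  refine ⟨M + 1, fun n hn a ha hQ => ?_⟩
  have h1 : n ≤ M := by
    refine hM ⟨e.symm (n, a), ⟨?_, ?_⟩, ?_⟩
    · rw [Set.mem_setOf_eq, not_not, e.apply_symm_apply]
      exact ha
    · rw [e.apply_symm_apply]
      exact hQ
    · change (e (e.symm (n, a))).1 = n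
      rw [e.apply_symm_apply]
  omega

theorem rich (W : ℕ → Set ℤ) (hW : ∀ k, (W k).Finite) (e : ℕ ≃ ℕ × ℤ)
    (h1 : ∀ k : ℕ, ∃ n₀ : ℕ, ∀ n : ℕ, n₀ ≤ n → ∀ a ∈ W n, ∃ p : ℕ, p.Prime ∧ k < p ∧ Once p a)
    (h2 : ∀ d : Dt, ∃ n₀ : ℕ, ∀ n : ℕ, n₀ ≤ n → ∀ a ∈ W n, ∃ p ∈ d.P, Once p a) :
    Rich {t : ℕ | (e t).2 ∉ W (e t).1} (fun t => (e t).2) := by
  classical
  refine ⟨fun k => fin_enum W hW e _ (h1 k), ?_⟩
  intro K _ n g h s N hn hh hdeg hs hN hnp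
  let e' : Fin (Fintype.card K) ≃ K := (Fintype.equivFin K).symm
  let d : Dt := ⟨Fintype.card K, n, g ∘ e', h, s ∘ e', N, hn, hh, fun k => hdeg (e' k),
    fun k => hs (e' k), hN, fun hp => hnp (pers_reindex e' n g h s hp)⟩
  refine fin_enum W hW e (fun a => ∃ p : ℕ, p.Prime ∧ ¬ p ∣ N ∧ ¬ R p n g h s ∧ Once p a) ?_
  obtain ⟨n₀, hn⟩ := h2 d
  refine ⟨n₀, fun n hn1 a ha => ?_⟩
  obtain ⟨p, hp, hpa⟩ := hn n hn1 a ha
  exact ⟨p, hp.1, hp.2.1, fun hR => hp.2.2 ((R_reindex e' p _ g h s).2 hR), hpa⟩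

end Pool.Agent.V7H56.TN
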