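import Pool.Agent.V7H56.TN.Near

/-!
# The birational section conjecture for all twists of cyclic coverings by integers near `α ^ (v_k)`

Let `D : b y ^ n = ∏ k, g k (z)` be a curve over `ℚ`, where the `g k` are polynomials with integral
coefficients, of degrees divisible by `n`, pairwise coprime, and let `h` be a polynomial with integral
coefficients, coprime to the `g k`. For an integer `a ≠ 0` and `m ≥ 2`, `m ∣ deg h`, consider the curve

  `C a : b y ^ n = ∏ k, g k (z)`, `a x ^ m = h (z)`,

a cyclic covering of degree `m` of the fixed curve `D`. We consider sections `s` of `Gal(Ω/F) → G_ℚ`, where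
`F` is the function field of `C a`, of a covering of it or of a variety with a dominant map to it, which
are geometric over the completions of `ℚ` at the finite places; by the theorem of Koenigsmann on
sections over local fields all sections have this property.

The starting results of the page treat almost all squarefree `a`, `|a| ≤ X` (`SectionsOfTwistedCoverings`)
and almost all members of sequences which are uniformly distributed modulo all integers
(`ThinTwistedCoverings`). Here there are no exceptions in the windows: ALL integers (squarefree or not)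
near very sparse sequences are considered, for all `D` and `h` at once.

**Theorem.** Let `v_j ≥ 1` and `L_j ≥ 1` be real numbers such that the sums of `L_j v_j ^ (-t)` converge for
all `t > 0` (for instance `v_j = 3 ^ j` as in the theorem of Mills on prime numbers, and `L_j = (j + 1) ^ A`;
this is part (0) of the theorem). There is ONE null set `Z` of real numbers such that for all `α > 1`
outside `Z` and ALL `n`, `b`, `g`, `h` there is `j₀` such that for all `j ≥ j₀` and ALL integers `a ≠ 0`
with `||a| - α ^ (v_j)| ≤ L_j`, for example for `a = ± ⌊α ^ (v_j)⌋`: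

(1) for all `m ≥ 2`, `m ∣ deg h`, all the sections over `C a` have a persistent class. If there are no
persistent classes, there are no sections.

(2) For `D : y² = (z² + 51) (z² - 1)` and `h = (z² + 1) (z² - 17) (z² + 17)` there are no persistent
classes. So there are no sections over `C a`, `m ∈ {2, 3, 6}`, although all the curves `C a` have points
over `ℝ` and all `ℚ_p`.

(3) Let `n = 2`, suppose that every persistent class is the class of a rational zero of `h`, and that
for some set `T` of indices the product `f = ∏ g k`, `k ∈ T`, is a quartic polynomial with a rational zero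
for which `f(α') y² = f(z)` is an elliptic curve with only finitely many rational points, whose
Tate-Shafarevich group is killed by a positive integer, for all integral zeros `α'` of `h`. Then every
section over `C a` arises from exactly one rational point, and `x = 0` there: the birational section
conjecture holds for the curves `C a` and their coverings.

Proof. (i) For a class `s` of coverings which is not persistent there is by Chebotarev's theorem a set `P` of
primes of positive lower density (in the sense of counting functions) modulo which the covering of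
class `s` has no points over the zeros of `h`; if a prime of `P` divides `a` exactly once then
there is no section of class `s` over `C a`. (ii) The integers `a ≠ 0` which no prime of `P` divides exactly once
are of the form `s B ³ A ²` with `s` squarefree without prime factors in `P`. By the sieve of the
starting library the number of these `s` with `|s| ≤ Y` is `O(Y (log Y) ^ (-κ))`, `κ > 0`, and the same
bound follows for the products. So for almost all `α > 1` the windows of all large `j` contain none of them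
(`Pool.Agent.R482.ST`). (iii) There are only countably many data, hence one null set. For given `D`, `h`
the classes of sections lie in a finite set which does not depend on `a`.
-/

set_option autoImplicit false

namespace Pool.Agent.V7H56.TN.Result

open Polynomial MeasureTheory Pool.Agent.R925.FD Pool.Agent.TH954 Pool.Agent.TH942

/-- The conditions on the polynomials: nonzero, the `g k` of degrees divisible by `n`, pairwise
coprime over `ℚ` and coprime to `h`. -/
structure Admissible {K : Type} (n : ℕ) (b : ℤ) (g : K → ℤ[X]) (h : ℤ[X]) : Prop where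
  n_pos : 0 < n
  b_ne : b ≠ 0
  g_ne : ∀ k, g k ≠ 0
  h_ne : h ≠ 0
  deg : ∀ k, n ∣ (g k).natDegree
  coprime : ∀ k l, k ≠ l →
    IsCoprime ((g k).map (Int.castRingHom ℚ)) ((g l).map (Int.castRingHom ℚ))
  coprime_h : ∀ k, IsCoprime (h.map (Int.castRingHom ℚ)) ((g k).map (Int.castRingHom ℚ))

/-- There are no sections of `Gal(Ω/F) → G_ℚ` which are geometric over the completions of `ℚ` at the
finite places, for all extensions `F` of the function field of `C a`. -/
def NoSections {K : Type} [Fintype K] (n m : ℕ) (b a : ℤ) (g : K → ℤ[X]) (h : ℤ[X]) : Prop :=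
  ∀ (F Ω B : Type) [Field F] [Field Ω] [Field B] [Algebra ℚ F] [Algebra F Ω] [Algebra ℚ Ω]
    [Algebra ℚ B] [IsScalarTower ℚ F Ω] [IsAlgClosure F Ω] [IsAlgClosure ℚ B] (z x y : F),
    Transcendental ℚ z → (b : F) * y ^ n = ∏ k, aeval z (g k) → (a : F) * x ^ m = aeval z h →
    ¬ ∃ s : GalSection ℚ F Ω B, LocallyGeometric s

/-- The property `Q` holds for all the integers `a ≠ 0` with `||a| - α ^ (v j)| ≤ L j`, for all large `j`. -/
def Near (v L : ℕ → ℝ) (α : ℝ) (Q : ℤ → Prop) : Prop :=
  ∃ j₀ : ℕ, ∀ j : ℕ, j₀ ≤ j → ∀ a : ℤ, a ≠ 0 → |(|(a : ℝ)|) - α ^ (v j)| ≤ L j → Q a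

/-- the integers in the window -/
def Win (v L : ℕ → ℝ) (α : ℝ) (j : ℕ) : Set ℤ :=
  {a : ℤ | a ≠ 0 ∧ |(|(a : ℝ)|) - α ^ (v j)| ≤ L j}

lemma win_fin (v L : ℕ → ℝ) (α : ℝ) (j : ℕ) : (Win v L α j).Finite := by
  refine (Pool.Agent.V7H56.TN.fin_le Set.univ (α ^ (v j) + L j)).subset ?_
  rintro a ⟨-, h⟩
  refine ⟨Set.mem_univ _, ?_⟩
  have h1 := (abs_le.1 h).2
  linarith

lemma mills (A : ℕ) (t : ℝ) (ht : 0 < t) :
    Summable fun j : ℕ => ((j : ℝ) + 1) ^ A * ((3 : ℝ) ^ j) ^ (-t) := by
  have hr0 : (0 : ℝ) < (3 : ℝ) ^ (-t) := by positivity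
  have hr1 : (3 : ℝ) ^ (-t) < 1 := Real.rpow_lt_one_of_one_lt_of_neg (by norm_num) (by linarith)
  have h1 : Summable fun j : ℕ => (j : ℝ) ^ A * ((3 : ℝ) ^ (-t)) ^ j :=
    summable_pow_mul_geometric_of_norm_lt_one A (by
      rw [Real.norm_eq_abs, abs_of_pos hr0]
      exact hr1)
  have h2 := ((summable_nat_add_iff 1).2 h1).mul_left ((3 : ℝ) ^ (-t))⁻¹
  refine h2.congr fun j => ?_
  have e1 : ((3 : ℝ) ^ j) ^ (-t) = ((3 : ℝ) ^ (-t)) ^ j := by
    rw [← Real.rpow_natCast, ← Real.rpow_natCast, ← Real.rpow_mul (by norm_num),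
      ← Real.rpow_mul (by norm_num), mul_comm]
  rw [e1, pow_succ]
  push_cast
  field_simp

/-- **Theorem.** (0) The numbers `v j = 3 ^ j`, `L j = (j + 1) ^ A` satisfy the conditions. (1)-(3): see above. -/
theorem result :
    (∀ (A : ℕ) (t : ℝ), 0 < t → Summable fun j : ℕ => ((j : ℝ) + 1) ^ A * ((3 : ℝ) ^ j) ^ (-t)) ∧
    ∀ v L : ℕ → ℝ, (∀ j, 1 ≤ v j) → (∀ j, 1 ≤ L j) →
      (∀ t : ℝ, 0 < t → Summable fun j => L j * (v j) ^ (-t)) →
      ∃ Z : Set ℝ, volume Z = 0 ∧ ∀ α : ℝ, 1 < α → α ∉ Z →
        (∀ (K : Type) [Fintype K] (n : ℕ) (b : ℤ) (g : K → ℤ[X]) (h : ℤ[X]), Admissible n b g h →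
          Near v L α (fun a => ∀ m, 2 ≤ m → m ∣ h.natDegree → SectionsPersistent n m b a g h) ∧
          ((∀ δ, IsClass n b δ → ¬ Persistent n g h δ) →
            Near v L α (fun a => ∀ m, 2 ≤ m → m ∣ h.natDegree → NoSections n m b a g h))) ∧
        ((∀ (a : ℤ) (m : ℕ), m ≠ 0 → CurveHasPoint 2 m 1 a exg exh ℝ ∧
            ∀ (p : ℕ) [Fact p.Prime], CurveHasPoint 2 m 1 a exg exh ℚ_[p]) ∧
          Near v L α (fun a => ∀ m, 2 ≤ m → m ∣ exh.natDegree → NoSections 2 m 1 a exg exh)) ∧
        (∀ (K : Type) [Fintype K] (b : ℤ) (g : K → ℤ[X]) (h : ℤ[X]), Admissible 2 b g h →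
          OnlyZeros b g h → ∀ (M₀ : ℕ) (T : Finset K), 1 ≤ M₀ →
          (∀ α' : ℤ, h.eval α' = 0 → EllipticFactor (∏ k ∈ T, g k) α' M₀) →
          Near v L α (fun a => ∀ m, 2 ≤ m → m ∣ h.natDegree → SectionsFromZeros 2 m b a g h)) := by
  classical
  refine ⟨mills, fun v L hv hL hs => ?_⟩
  obtain ⟨Z, hZ, hall⟩ := Pool.Agent.V7H56.TN.all_near hv hL hs
  refine ⟨Z, hZ, fun α hα hαZ => ?_⟩
  obtain ⟨e1, e2⟩ := hall α hα hαZ
  obtain ⟨e⟩ : Nonempty (ℕ ≃ ℕ × ℤ) := ⟨(Denumerable.eqv (ℕ × ℤ)).symm⟩
  have hrich := Pool.Agent.V7H56.TN.rich (Win v L α) (win_fin v L α) e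
    (fun k => by
      obtain ⟨n₀, hn⟩ := e1 k
      exact ⟨n₀, fun n h1 a ha => hn n h1 a ha.1 ha.2⟩)
    (fun d => by
      obtain ⟨n₀, hn⟩ := e2 d
      exact ⟨n₀, fun n h1 a ha => hn n h1 a ha.1 ha.2⟩)
  have hnear : ∀ (Q : ℤ → ℕ → Prop) (d : ℕ),
      {t : ℕ | t ∉ {t : ℕ | (e t).2 ∉ Win v L α (e t).1} ∧ ∃ m, 2 ≤ m ∧ m ∣ d ∧
        ¬ Q (e t).2 m}.Finite →
      Near v L α (fun a => ∀ m, 2 ≤ m → m ∣ d → Q a m) := by
    intro Q d hf
    obtain ⟨n₀, hn⟩ := Pool.Agent.V7H56.TN.of_fin_enum (Win v L α) e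
      (fun a => ∃ m, 2 ≤ m ∧ m ∣ d ∧ ¬ Q a m) hf
    refine ⟨n₀, fun j hj a ha hd m hm hmd => ?_⟩
    by_contra hcon
    exact hn j hj a ⟨ha, hd⟩ ⟨m, hm, hmd, hcon⟩
  have hno : ∀ (K : Type) [Fintype K] (n : ℕ) (b : ℤ) (g : K → ℤ[X]) (h : ℤ[X]),
      Admissible n b g h → (∀ δ, IsClass n b δ → ¬ Persistent n g h δ) →
      Near v L α (fun a => ∀ m, 2 ≤ m → m ∣ h.natDegree → NoSections n m b a g h) := by
    intro K _ n b g h hA hnp
    refine hnear (fun a m => NoSections n m b a g h) h.natDegree ?_
    refine (Pool.Agent.N92.TC.sec_main hrich hA.n_pos hA.b_ne hA.g_ne hA.h_ne hA.deg hA.coprime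
      hA.coprime_h).subset ?_
    rintro t ⟨htE, m, hm, hmh, hns⟩
    refine ⟨htE, m, hm, hmh, fun hP => hns ?_⟩
    intro F Ω B _ _ _ _ _ _ _ _ _ _ z x y hz hy hx ⟨s, hs⟩
    obtain ⟨δ, h3, -, h4⟩ := hP F Ω B z x y hz hy hx s hs
    exact hnp δ h3 h4
  refine ⟨fun K _ n b g h hA => ⟨?_, hno K n b g h hA⟩, ⟨fun a m hm =>
    ⟨ex_real m hm a, fun p _ => ex_padic m hm a p⟩, ?_⟩, ?_⟩
  · exact hnear (fun a m => SectionsPersistent n m b a g h) h.natDegree
      (Pool.Agent.N92.TC.sec_main hrich hA.n_pos hA.b_ne hA.g_ne hA.h_ne hA.deg hA.coprime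
      hA.coprime_h)
  · exact hno _ 2 1 exg exh ⟨by norm_num, one_ne_zero, exg_ne, exh_ne,
      fun k => by rw [exg_deg k], exg_coprime, exgh_coprime⟩
      (fun δ hδ => ex_not_persistent δ (hδ.1 0))
  · intro K _ b g h hA hOZ M₀ T hM₀ hT
    exact hnear (fun a m => SectionsFromZeros 2 m b a g h) h.natDegree
      (Pool.Agent.N92.TC.fromZeros hrich hA.b_ne hA.g_ne hA.h_ne hA.deg hA.coprime hA.coprime_h
      hOZ hM₀ T hT)

end Pool.Agent.V7H56.TN.Result
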